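import Pool.Agent.helper84.NR.SpecW

set_option autoImplicit false

namespace Pool.Agent.helper84.NR

open scoped Classical
open Finset

theorem EXX : EXX_stmt := by
  intro V F _ _ M x y A hne hAx
  obtain ⟨-, hv, -, hedge, -⟩ := h_IDX V F M.toCyc A (st M x A)
  have hw0 : ww M x A 0 = x := (h_WW0 V F M x A hAx).1
  -- a face at y which meets A does so at a shared index
  have hidx : ∀ B, OnV M.toCyc B y → (∃ v, OnV M.toCyc A v ∧ OnV M.toCyc B v) →
      ∃ a, sh M y x A a ∧ OnV M.toCyc B (ww M x A a) := by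
    rintro B hBy ⟨v, hvA, hvB⟩
    obtain ⟨a, ha, hav⟩ := hv v hvA
    have hwa : ww M x A a = v := hav
    have ha0 : a ≠ 0 := by
      rintro rfl
      rw [hw0] at hwa
      rw [← hwa] at hvB
      exact hne B ⟨hvB, hBy⟩
    have hBa : OnV M.toCyc B (ww M x A a) := by rw [hwa]; exact hvB
    exact ⟨a, ⟨by omega, ha, B, hBy, hBa⟩, hBa⟩
  set MB : Finset F := univ.filter (fun B => OnV M.toCyc B y ∧ ∃ v, OnV M.toCyc A v ∧ OnV M.toCyc B v) with hMB
  set EX : Finset F := univ.filter (fun B => OnV M.toCyc B y ∧ ex M x y A B) with hEX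
  rcases MB.eq_empty_or_nonempty with h0 | ⟨B0, hB0⟩
  · rw [h0, card_empty]
    exact (min_le_right _ _).trans (Nat.zero_le _)
  obtain ⟨-, hB0y, hB0v⟩ := mem_filter.1 hB0
  obtain ⟨a0, ha0, -⟩ := hidx B0 hB0y hB0v
  set I : Finset ℕ := (range (M.len A)).filter (fun i => sh M y x A i) with hI
  have memI : ∀ i, i ∈ I ↔ sh M y x A i := by
    intro i
    rw [hI, mem_filter, mem_range]
    exact ⟨fun h => h.2, fun h => ⟨h.2.1, h⟩⟩
  have hIne : I.Nonempty := ⟨a0, (memI a0).2 ha0⟩
  set f : ℕ := I.min' hIne with hf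
  set l : ℕ := I.max' hIne with hl
  have hfs : sh M y x A f := (memI f).1 (I.min'_mem hIne)
  have hls : sh M y x A l := (memI l).1 (I.max'_mem hIne)
  have hfm : ∀ j, sh M y x A j → f ≤ j := fun j hj => I.min'_le j ((memI j).2 hj)
  have hlm : ∀ j, sh M y x A j → j ≤ l := fun j hj => I.le_max' j ((memI j).2 hj)
  have exf : ∀ B, OnV M.toCyc B y → OnV M.toCyc B (ww M x A f) → B ∈ EX := fun B hB hBf =>
    mem_filter.2 ⟨mem_univ _, hB, f, hfs, hBf, Or.inl hfm⟩
  have exl : ∀ B, OnV M.toCyc B y → OnV M.toCyc B (ww M x A l) → B ∈ EX := fun B hB hBl =>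
    mem_filter.2 ⟨mem_univ _, hB, l, hls, hBl, Or.inr hlm⟩
  by_cases hfl : f = l
  · refine (min_le_right _ _).trans (card_le_card ?_)
    intro B hB
    obtain ⟨-, hBy, hBv⟩ := mem_filter.1 hB
    obtain ⟨a, ha, hBa⟩ := hidx B hBy hBv
    have : a = f := le_antisymm (by rw [hfl]; exact hlm a ha) (hfm a ha)
    rw [this] at hBa
    exact exf B hBy hBa
  · have hflt : f < l := lt_of_le_of_ne (hfm l hls) hfl
    by_cases hch : ∃ B1 B2, B1 ≠ B2 ∧ OnV M.toCyc B1 y ∧ OnV M.toCyc B1 (ww M x A f) ∧
        OnV M.toCyc B2 y ∧ OnV M.toCyc B2 (ww M x A l)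
    · obtain ⟨B1, B2, h12, h1y, h1f, h2y, h2l⟩ := hch
      refine (min_le_left _ _).trans ?_
      have h2 : ({B1, B2} : Finset F) ⊆ EX := by
        intro B hB
        rw [mem_insert, mem_singleton] at hB
        rcases hB with rfl | rfl
        · exact exf _ h1y h1f
        · exact exl _ h2y h2l
      have := card_le_card h2
      rwa [card_pair h12] at this
    · push Not at hch
      obtain ⟨-, -, B1, h1y, h1f⟩ := id hfs
      obtain ⟨-, -, B2, h2y, h2l⟩ := id hls
      have h12 : B1 = B2 := by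
        by_contra h
        exact hch B1 B2 h h1y h1f h2y h2l
      subst h12
      have hAB : A ≠ B1 := by
        rintro rfl
        exact hne _ ⟨hAx, h1y⟩
      have hinj := h_IDX V F M.toCyc A (st M x A)
      have hune : ww M x A f ≠ ww M x A l := by
        intro h
        exact hfl (hinj.1 f l hfs.2.1 hls.2.1 h)
      have hAf : OnV M.toCyc A (ww M x A f) := ⟨_, rfl⟩
      have hAl : OnV M.toCyc A (ww M x A l) := ⟨_, rfl⟩
      have hp := (M.poly A B1 hAB _ _ hune hAf hAl h1f h2l).1
      have hadj := hedge f l hflt hls.2.1 hp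
      have hf1 : 1 ≤ f := hfs.1
      have hl1 : l = f + 1 := by
        rcases hadj with h | h
        · exact h
        · omega
      have hsub : MB ⊆ {B1} := by
        intro B hB
        obtain ⟨-, hBy, hBv⟩ := mem_filter.1 hB
        obtain ⟨a, ha, hBa⟩ := hidx B hBy hBv
        have g1 := hfm a ha
        have g2 := hlm a ha
        rw [mem_singleton]
        rcases (by omega : a = f ∨ a = l) with rfl | rfl
        · by_contra h
          exact hch B B1 h hBy hBa h1y h2l
        · by_contra h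
          exact hch B1 B (Ne.symm h) h1y h1f hBy hBa
      have h1 : MB.card ≤ 1 := by
        have := card_le_card hsub
        rwa [card_singleton] at this
      have h2 : 0 < EX.card := card_pos.2 ⟨B1, exf B1 h1y h1f⟩
      exact (min_le_right _ _).trans (by omega)

end Pool.Agent.helper84.NR
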